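import Mathlib
import Pool.Agent.H.MP_9b13a2_co.C

namespace Pool.Agent.Results.MP_9b13a2_co.Yes

open SimpleGraph Pool.Agent.H.MP_9b13a2_co

/-- Path-pairable: even order, and every pairing of all vertices is joined by edge-disjoint paths. -/
def PathPairable {V : Type} [Fintype V] (G : SimpleGraph V) : Prop :=
  Even (Fintype.card V) ∧ ∀ (k : ℕ) (s t : Fin k → V), Function.Bijective (Sum.elim s t) →
    ∃ P : ∀ i, G.Walk (s i) (t i), (∀ i, (P i).IsPath) ∧
      ∀ i j, i ≠ j → ∀ e ∈ (P i).edges, e ∉ (P j).edges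

/-- A drawing in the plane: distinct points, edges are simple arcs that meet vertices and other
edges only at their ends. -/
def Planar {V : Type} (G : SimpleGraph V) : Prop :=
  ∃ (p : V → ℝ × ℝ) (γ : V → V → unitInterval → ℝ × ℝ), Function.Injective p ∧
    (∀ u v, G.Adj u v → Continuous (γ u v) ∧ Function.Injective (γ u v) ∧ γ u v 0 = p u ∧
      γ u v 1 = p v ∧ ∀ w t, γ u v t = p w → t = 0 ∨ t = 1) ∧
    ∀ u v x y, G.Adj u v → G.Adj x y → s(u, v) ≠ s(x, y) →
      ∀ s t, γ u v s = γ x y t → s = 0 ∨ s = 1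

theorem result : ∀ D : ℕ, ∃ (V : Type) (_ : Fintype V) (G : SimpleGraph V),
    PathPairable G ∧ Planar G ∧ G.Connected ∧ D ≤ G.diam := by
  intro D
  obtain ⟨K, hK⟩ : ∃ K, K = Fintype.card (T (4 * D)) := ⟨_, rfl⟩
  have hc : Fintype.card (W (4 * D) K (4 * K + 4)) = 10 * K + 10 := by
    simp only [Fintype.card_sum, Fintype.card_bool, Fintype.card_fin, Fintype.card_prod, ← hK]
    ring
  have hC : (fromRel (E : W (4 * D) K (4 * K + 4) → _)).Connected :=
    @Connected.mk _ _ (fun u v => (conn (by omega) u).trans (conn (by omega) v).symm) ⟨hub true⟩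
  refine ⟨_, inferInstance, _, main (hc ▸ ⟨5 * K + 5, by ring⟩) (by omega), planar, hC, ?_⟩
  have : Nonempty (W (4 * D) K (4 * K + 4)) := ⟨hub true⟩
  let r : W (4 * D) K (4 * K + 4) := .inl ⟨_, ok_sc (y := 0) (Nat.zero_le _) (by simp)⟩
  obtain ⟨p, hp⟩ := hC.exists_walk_length_eq_dist r (hub true)
  have h1 : 4 * D + 4 - 1 ≤ 0 + _ := far p
  have h2 := dist_le_diam (connected_iff_ediam_ne_top.mp hC) (u := r) (v := hub true)
  omega

end Pool.Agent.Results.MP_9b13a2_co.Yes
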